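import Mathlib

/-!
# A closed walk traversing every edge of a connected graph exactly once in each direction
-/

set_option autoImplicit false

namespace Pool.Agent.H417R3

open SimpleGraph

variable {V : Type*} {G : SimpleGraph V}

/-- A closed walk without repeated darts whose set of darts is closed under reversal. -/
def GoodWalk {v : V} (p : G.Walk v v) : Prop :=
  p.darts.Nodup ∧ ∀ d ∈ p.darts, d.symm ∈ p.darts

lemma exists_new_dart (hG : G.Connected) {v : V} (p : G.Walk v v)
    (hp : ∃ d : G.Dart, d ∉ p.darts) : ∃ d : G.Dart, d.fst ∈ p.support ∧ d ∉ p.darts := by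
  by_contra hcon
  push Not at hcon
  have hall : ∀ (w : V), w ∈ p.support := by
    intro w
    obtain ⟨q⟩ := hG.preconnected v w
    have key : ∀ (a b : V) (q : G.Walk a b), a ∈ p.support → b ∈ p.support := by
      intro a b q
      induction q with
      | nil => exact id
      | @cons a c b h q ih =>
        intro ha
        apply ih
        have h1 := hcon ⟨(a, c), h⟩ ha
        exact p.dart_snd_mem_support_of_mem_darts h1
    exact key v w q p.start_mem_support
  obtain ⟨d, hd⟩ := hp
  exact hd (hcon d (hall _))

lemma extend [DecidableEq V] {v : V} (p : G.Walk v v) (hp : GoodWalk p) (d : G.Dart)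
    (hd : d.fst ∈ p.support) (hd' : d ∉ p.darts) :
    ∃ q : G.Walk v v, GoodWalk q ∧ q.length = p.length + 2 := by
  obtain ⟨⟨a, b⟩, hab⟩ := d
  change a ∈ p.support at hd
  set d : G.Dart := ⟨(a, b), hab⟩ with hdd
  have hab' : G.Adj a b := hab
  let q : G.Walk v v := (p.takeUntil a hd).append
    (Walk.cons hab' (Walk.cons hab'.symm (p.dropUntil a hd)))
  have hdarts : q.darts = (p.takeUntil a hd).darts ++ (d :: d.symm :: (p.dropUntil a hd).darts) := by
    simp only [q, Walk.darts_append, Walk.darts_cons]
    rfl
  have hpd : p.darts = (p.takeUntil a hd).darts ++ (p.dropUntil a hd).darts := by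
    conv_lhs => rw [← p.take_spec hd]
    rw [Walk.darts_append]
  have hperm : q.darts.Perm (d :: d.symm :: p.darts) := by
    rw [hdarts, hpd]
    refine (List.perm_middle).trans ?_
    refine List.Perm.cons _ ?_
    exact List.perm_middle
  have hds : d.symm ∉ p.darts := by
    intro h
    have := hp.2 _ h
    rw [Dart.symm_symm] at this
    exact hd' this
  have hne : d ≠ d.symm := (Dart.symm_ne d).symm
  refine ⟨q, ⟨?_, ?_⟩, ?_⟩
  · rw [hperm.nodup_iff, List.nodup_cons, List.nodup_cons]
    refine ⟨?_, hds, hp.1⟩
    rw [List.mem_cons]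
    rintro (h | h)
    · exact hne h
    · exact hd' h
  · intro e he
    rw [hperm.mem_iff, List.mem_cons, List.mem_cons] at he ⊢
    rcases he with rfl | rfl | he
    · exact Or.inr (Or.inl rfl)
    · rw [Dart.symm_symm]; exact Or.inl rfl
    · exact Or.inr (Or.inr (hp.2 _ he))
  · have h1 := hperm.length_eq
    simp only [List.length_cons, Walk.length_darts] at h1
    exact h1

/-- In a finite connected graph there is a closed walk which uses every dart exactly once. -/
theorem exists_double_tracing [Finite V] (hG : G.Connected) (v : V) :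
    ∃ p : G.Walk v v, p.darts.Nodup ∧ ∀ d : G.Dart, d ∈ p.darts := by
  classical
  haveI : Fintype V := Fintype.ofFinite V
  have key : ∀ (k : ℕ) (p : G.Walk v v), GoodWalk p → Fintype.card G.Dart ≤ p.length + k →
      ∃ p : G.Walk v v, p.darts.Nodup ∧ ∀ d : G.Dart, d ∈ p.darts := by
    intro k
    induction k using Nat.strong_induction_on with
    | _ k ih =>
      intro p hp hk
      by_cases hall : ∀ d : G.Dart, d ∈ p.darts
      · exact ⟨p, hp.1, hall⟩
      · push Not at hall
        obtain ⟨d, h1, h2⟩ := exists_new_dart hG p hall
        obtain ⟨q, hq, hlen⟩ := extend p hp d h1 h2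
        have hle : q.length ≤ Fintype.card G.Dart := by
          rw [← Walk.length_darts]
          exact List.Nodup.length_le_card hq.1
        refine ih (Fintype.card G.Dart - q.length) ?_ q hq (by omega)
        omega
  refine key (Fintype.card G.Dart) Walk.nil ⟨by simp, by simp⟩ (by omega)

end Pool.Agent.H417R3
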