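import Mathlib

/-!
# The discrete Wirtinger inequality on a cycle
-/

set_option autoImplicit false

namespace Pool.Agent.H417R3

open Finset

lemma parseval_addChar {A : Type*} [AddCommGroup A] [Fintype A] [DecidableEq A] (f : A → ℂ) :
    ∑ χ : AddChar A ℂ, ‖∑ x, f x * χ x‖ ^ 2 = (Fintype.card A : ℝ) * ∑ x, ‖f x‖ ^ 2 := by
  have h0 : ∀ z : ℂ, ((‖z‖ ^ 2 : ℝ) : ℂ) = z * (starRingEnd ℂ) z := by
    intro z; rw [Complex.mul_conj, Complex.normSq_eq_norm_sq]
  have h : ((∑ χ : AddChar A ℂ, ‖∑ x, f x * χ x‖ ^ 2 : ℝ) : ℂ) =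
      (((Fintype.card A : ℝ) * ∑ x, ‖f x‖ ^ 2 : ℝ) : ℂ) := by
    have h1 : ∀ χ : AddChar A ℂ, ((‖∑ x, f x * χ x‖ ^ 2 : ℝ) : ℂ) =
        ∑ x, ∑ y, f x * (starRingEnd ℂ) (f y) * χ (x - y) := by
      intro χ
      rw [h0, map_sum, Finset.sum_mul_sum]
      refine Finset.sum_congr rfl fun x _ => Finset.sum_congr rfl fun y _ => ?_
      rw [map_mul, sub_eq_add_neg, AddChar.map_add_eq_mul, AddChar.map_neg_eq_conj]
      ring
    rw [Complex.ofReal_sum]
    simp_rw [h1]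
    rw [Finset.sum_comm]
    simp_rw [Finset.sum_comm (s := (univ : Finset (AddChar A ℂ)))]
    simp_rw [← Finset.mul_sum, AddChar.sum_apply_eq_ite, sub_eq_zero]
    simp only [mul_ite, mul_zero, Finset.sum_ite_eq, Finset.mem_univ, if_true]
    push_cast
    rw [Finset.mul_sum]
    refine Finset.sum_congr rfl fun x _ => ?_
    have := h0 (f x)
    push_cast at this
    rw [this]
    ring
  exact_mod_cast h

lemma cos_mul_le {N k : ℕ} (hN : 2 ≤ N) (hk : 1 ≤ k) (hkN : k < N) :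
    Real.cos (2 * Real.pi * (k / N)) ≤ Real.cos (2 * Real.pi / N) := by
  have hN0 : (0 : ℝ) < N := by positivity
  have hpi := Real.pi_pos
  have h1 : (2 : ℝ) * Real.pi / N ≤ Real.pi := by
    rw [div_le_iff₀ hN0]
    have : (2 : ℝ) ≤ N := by exact_mod_cast hN
    nlinarith
  have hk1 : (1 : ℝ) ≤ k := by exact_mod_cast hk
  have hkN' : (k : ℝ) + 1 ≤ N := by exact_mod_cast hkN
  have h2 : 2 * Real.pi / N ≤ 2 * Real.pi * (k / N) := by
    rw [← mul_div_assoc]
    apply div_le_div_of_nonneg_right _ hN0.le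
    nlinarith
  by_cases h3 : 2 * Real.pi * ((k : ℝ) / N) ≤ Real.pi
  · exact Real.cos_le_cos_of_nonneg_of_le_pi (by positivity) h3 h2
  · push Not at h3
    have h4 : Real.cos (2 * Real.pi * (k / N)) = Real.cos (2 * Real.pi - 2 * Real.pi * (k / N)) := by
      rw [Real.cos_two_pi_sub]
    rw [h4]
    apply Real.cos_le_cos_of_nonneg_of_le_pi (by positivity) (by linarith)
    have h5 : 2 * Real.pi - 2 * Real.pi * (k / N) = 2 * Real.pi * (N - k) / N := by
      field_simp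
    rw [h5]
    apply div_le_div_of_nonneg_right _ hN0.le
    nlinarith

lemma root_norm {N : ℕ} (hN : 2 ≤ N) (z : ℂ) (hz : z ^ N = 1) (hz1 : z ≠ 1) :
    2 - 2 * Real.cos (2 * Real.pi / N) ≤ ‖z - 1‖ ^ 2 := by
  have hN0 : N ≠ 0 := by omega
  haveI : NeZero N := ⟨hN0⟩
  have hz0 : z ≠ 0 := by
    rintro rfl
    rw [zero_pow hN0] at hz
    exact zero_ne_one hz
  let u : ℂˣ := Units.mk0 z hz0
  have hu : u ∈ rootsOfUnity N ℂ := by
    rw [mem_rootsOfUnity]
    ext
    simp [u, hz]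
  rw [Complex.mem_rootsOfUnity] at hu
  obtain ⟨k, hk, hk2⟩ := hu
  have hk3 : Complex.exp (2 * Real.pi * Complex.I * (k / N)) = z := hk2
  have hk0 : 1 ≤ k := by
    rcases Nat.eq_zero_or_pos k with rfl | h
    · exfalso
      apply hz1
      rw [← hk3]
      simp
    · exact h
  have hform : z = Complex.exp (((2 * Real.pi * (k / N) : ℝ) : ℂ) * Complex.I) := by
    rw [← hk3]
    congr 1
    push_cast
    ring
  have hnorm : ‖z - 1‖ ^ 2 = 2 - 2 * Real.cos (2 * Real.pi * (k / N)) := by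
    rw [hform, ← Complex.normSq_eq_norm_sq, Complex.normSq_apply]
    simp only [Complex.sub_re, Complex.sub_im, Complex.one_re, Complex.one_im,
      Complex.exp_ofReal_mul_I_re, Complex.exp_ofReal_mul_I_im, sub_zero]
    nlinarith [Real.sin_sq_add_cos_sq (2 * Real.pi * (k / N))]
  rw [hnorm]
  have := cos_mul_le hN hk0 hk
  linarith

/-- Discrete Wirtinger inequality on the cycle of length `N`. -/
theorem wirtinger_cycle {N : ℕ} [NeZero N] (hN : 2 ≤ N) (f : ZMod N → ℝ) (hf : ∑ x, f x = 0) :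
    (2 - 2 * Real.cos (2 * Real.pi / N)) * ∑ x, f x ^ 2 ≤ ∑ x, (f (x + 1) - f x) ^ 2 := by
  have hN0 : (0 : ℝ) < N := by
    have : 0 < N := by omega
    exact_mod_cast this
  have e1 := parseval_addChar (fun x : ZMod N => ((f x : ℝ) : ℂ))
  have e2 := parseval_addChar (fun x : ZMod N => ((f (x + 1) - f x : ℝ) : ℂ))
  simp only [Complex.norm_real, Real.norm_eq_abs, sq_abs, ZMod.card] at e1 e2
  have key : ∀ χ : AddChar (ZMod N) ℂ,
      (2 - 2 * Real.cos (2 * Real.pi / N)) * ‖∑ x : ZMod N, ((f x : ℝ) : ℂ) * χ x‖ ^ 2 ≤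
        ‖∑ x : ZMod N, ((f (x + 1) - f x : ℝ) : ℂ) * χ x‖ ^ 2 := by
    intro χ
    have h1 : ∑ x : ZMod N, ((f (x + 1) - f x : ℝ) : ℂ) * χ x =
        (χ (-1) - 1) * ∑ x : ZMod N, ((f x : ℝ) : ℂ) * χ x := by
      have h2 : ∑ x : ZMod N, ((f (x + 1) : ℝ) : ℂ) * χ x
          = χ (-1) * ∑ x : ZMod N, ((f x : ℝ) : ℂ) * χ x := by
        rw [Finset.mul_sum]
        rw [← Equiv.sum_comp (Equiv.addRight (1 : ZMod N))
          (fun x => χ (-1) * (((f x : ℝ) : ℂ) * χ x))]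
        refine Finset.sum_congr rfl fun x _ => ?_
        simp only [Equiv.coe_addRight]
        have h3 : χ x = χ (-1) * χ (x + 1) := by
          rw [← AddChar.map_add_eq_mul]
          congr 1
          ring
        rw [h3]
        ring
      have h4 : ∑ x : ZMod N, ((f (x + 1) - f x : ℝ) : ℂ) * χ x =
          ∑ x : ZMod N, ((f (x + 1) : ℝ) : ℂ) * χ x - ∑ x : ZMod N, ((f x : ℝ) : ℂ) * χ x := by
        rw [← Finset.sum_sub_distrib]
        refine Finset.sum_congr rfl fun x _ => ?_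
        push_cast
        ring
      rw [h4, h2]
      ring
    by_cases hχ : χ = 1
    · subst hχ
      have h5 : ∑ x : ZMod N, ((f x : ℝ) : ℂ) * (1 : AddChar (ZMod N) ℂ) x = 0 := by
        simp only [AddChar.one_apply, mul_one]
        rw [← Complex.ofReal_sum, hf, Complex.ofReal_zero]
      rw [h5]
      simp
    · rw [h1, norm_mul, mul_pow]
      apply mul_le_mul_of_nonneg_right _ (by positivity)
      apply root_norm hN
      · rw [← AddChar.map_nsmul_eq_pow]
        simp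
      · intro h6
        apply hχ
        ext x
        rw [AddChar.one_apply]
        have h7 : x = (N - x.val) • (-1 : ZMod N) := by
          rw [nsmul_eq_mul, Nat.cast_sub (ZMod.val_lt x).le]
          simp
        rw [h7, AddChar.map_nsmul_eq_pow, h6, one_pow]
  have h8 : (2 - 2 * Real.cos (2 * Real.pi / N)) *
      ∑ χ : AddChar (ZMod N) ℂ, ‖∑ x : ZMod N, ((f x : ℝ) : ℂ) * χ x‖ ^ 2 ≤
      ∑ χ : AddChar (ZMod N) ℂ, ‖∑ x : ZMod N, ((f (x + 1) - f x : ℝ) : ℂ) * χ x‖ ^ 2 := by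
    rw [Finset.mul_sum]
    exact Finset.sum_le_sum fun χ _ => key χ
  rw [e1, e2] at h8
  have h9 : (N : ℝ) * ((2 - 2 * Real.cos (2 * Real.pi / N)) * ∑ x, f x ^ 2) ≤
      N * ∑ x, (f (x + 1) - f x) ^ 2 := by
    calc _ = (2 - 2 * Real.cos (2 * Real.pi / N)) * ((N : ℝ) * ∑ x, f x ^ 2) := by ring
      _ ≤ _ := h8
  exact le_of_mul_le_mul_left h9 hN0

end Pool.Agent.H417R3
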