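import Pool.Agent.H417R3.ClosedTrail
import Pool.Agent.H417R3.Wirt

/-!
# The relaxation time of a connected graph with `m` edges is at most that of the path
-/

set_option autoImplicit false

namespace Pool.Agent.H417R3

open Finset SimpleGraph

variable {V : Type*} [Fintype V] {G : SimpleGraph V}

lemma sum_zmod_val {N : ℕ} [NeZero N] (φ : ℕ → ℝ) :
    ∑ x : ZMod N, φ x.val = ∑ i ∈ range N, φ i := by
  refine Finset.sum_nbij' (fun x : ZMod N => x.val) (fun i : ℕ => (i : ZMod N)) ?_ ?_ ?_ ?_ ?_
  · intro x _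
    rw [Finset.mem_range]
    exact ZMod.val_lt x
  · intro i _
    exact Finset.mem_univ _
  · intro x _
    exact ZMod.natCast_zmod_val x
  · intro i hi
    rw [Finset.mem_range] at hi
    exact ZMod.val_cast_of_lt hi
  · intro x _
    rfl

lemma sum_darts [DecidableEq V] [DecidableRel G.Adj] (H : V → V → ℝ) :
    ∑ d : G.Dart, H d.fst d.snd = ∑ u, ∑ v, if G.Adj u v then H u v else 0 := by
  rw [← Finset.sum_product', Finset.univ_product_univ, ← Finset.sum_filter]
  refine Finset.sum_bij (fun d _ => (d.fst, d.snd)) ?_ ?_ ?_ ?_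
  · intro d _
    simp [d.adj]
  · intro a _ b _ hab
    apply SimpleGraph.Dart.ext
    simpa using hab
  · rintro ⟨u, v⟩ huv
    simp only [mem_filter, mem_univ, true_and] at huv
    exact ⟨⟨(u, v), huv⟩, Finset.mem_univ _, rfl⟩
  · intro d _
    rfl

lemma sum_darts_fst [DecidableEq V] [DecidableRel G.Adj] (F : V → ℝ) :
    ∑ d : G.Dart, F d.fst = ∑ u, (G.degree u : ℝ) * F u := by
  rw [sum_darts (fun u _ => F u)]
  refine Finset.sum_congr rfl fun u _ => ?_
  rw [← Finset.sum_filter, Finset.sum_const, nsmul_eq_mul]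
  congr 2
  rw [← SimpleGraph.card_neighborFinset_eq_degree]
  congr 1
  ext w
  simp

lemma walk_sum {v : V} [DecidableEq V] [DecidableRel G.Adj] (p : G.Walk v v)
    (h1 : p.darts.Nodup) (h2 : ∀ d : G.Dart, d ∈ p.darts) (H : V → V → ℝ) :
    ∑ i ∈ range p.length, H (p.getVert i) (p.getVert (i + 1)) = ∑ d : G.Dart, H d.fst d.snd := by
  have e1 : ∑ d : G.Dart, H d.fst d.snd = (p.darts.map (fun d => H d.fst d.snd)).sum := by
    have hu : (Finset.univ : Finset G.Dart) = p.darts.toFinset := by
      ext d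
      simp [h2 d]
    rw [hu, List.sum_toFinset _ h1]
  rw [e1, ← Fin.sum_univ_fun_getElem, Finset.sum_range, ← Walk.length_darts]
  refine Finset.sum_congr rfl fun i _ => ?_
  rw [Walk.darts_getElem_eq_getVert]

/-- Every connected graph with `m` edges has spectral gap of simple random walk at least
`1 - cos (π / m)`. -/
theorem gap_bound [DecidableEq V] [DecidableRel G.Adj] (hG : G.Connected)
    (hm : 1 ≤ G.edgeFinset.card) (f : V → ℝ) (hf : ∑ v, (G.degree v : ℝ) * f v = 0) :
    (1 - Real.cos (Real.pi / G.edgeFinset.card)) * ∑ v, (G.degree v : ℝ) * f v ^ 2 ≤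
      (1 / 2 : ℝ) * ∑ u, ∑ v, (if G.Adj u v then (f u - f v) ^ 2 else 0) := by
  obtain ⟨v⟩ := hG.nonempty
  obtain ⟨p, h1, h2⟩ := exists_double_tracing hG v
  have hlen : p.length = 2 * G.edgeFinset.card := by
    rw [← G.dart_card_eq_twice_card_edges, ← Walk.length_darts]
    rw [← List.toFinset_card_of_nodup h1]
    have hu : p.darts.toFinset = (Finset.univ : Finset G.Dart) := by
      ext d
      simp [h2 d]
    rw [hu, Finset.card_univ]
  have hN : 2 ≤ p.length := by omega
  haveI : NeZero p.length := ⟨by omega⟩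
  have hshift : ∀ x : ZMod p.length, p.getVert (x + 1).val = p.getVert (x.val + 1) := by
    intro x
    have hx : x + 1 = ((x.val + 1 : ℕ) : ZMod p.length) := by
      push_cast
      rw [ZMod.natCast_zmod_val]
    rcases Nat.lt_or_ge (x.val + 1) p.length with h | h
    · rw [hx, ZMod.val_cast_of_lt h]
    · have h3 : x.val + 1 = p.length := le_antisymm (ZMod.val_lt x) h
      rw [hx, h3, ZMod.natCast_self, ZMod.val_zero, Walk.getVert_zero, Walk.getVert_length]
  have hw := wirtinger_cycle hN (fun x : ZMod p.length => f (p.getVert x.val)) (by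
    rw [sum_zmod_val (fun i => f (p.getVert i)), walk_sum p h1 h2 (fun a _ => f a),
      sum_darts_fst f, hf])
  simp only [hshift] at hw
  rw [sum_zmod_val (fun i => f (p.getVert i) ^ 2),
    sum_zmod_val (fun i => (f (p.getVert (i + 1)) - f (p.getVert i)) ^ 2),
    walk_sum p h1 h2 (fun a _ => f a ^ 2),
    walk_sum p h1 h2 (fun a b => (f b - f a) ^ 2), sum_darts_fst (fun a => f a ^ 2),
    sum_darts (fun a b => (f b - f a) ^ 2), hlen] at hw
  have hc : 2 * Real.pi / ((2 * G.edgeFinset.card : ℕ) : ℝ) = Real.pi / G.edgeFinset.card := by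
    push_cast
    rw [mul_div_mul_left _ _ (by norm_num)]
  rw [hc] at hw
  have hs : ∑ u, ∑ v, (if G.Adj u v then (f v - f u) ^ 2 else 0) =
      ∑ u, ∑ v, (if G.Adj u v then (f u - f v) ^ 2 else 0) := by
    refine Finset.sum_congr rfl fun u _ => Finset.sum_congr rfl fun w _ => ?_
    split_ifs
    · ring
    · rfl
  rw [hs] at hw
  linarith

end Pool.Agent.H417R3
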